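import Pool.Agent.GK.C.Deep
import Pool.Agent.TF2.L.MerN2

/-!
# GK/C-Mer: powers of the completed L-functions are quotients of entire functions

As TF2/L/MerN2, with `algD` instead of `alg2`.
-/

namespace Pool.Agent.GK

open NumberField IsDedekindDomain Pool.Agent.HWR Pool.Agent.QD Pool.Agent.LD Pool.Agent.H73.AL
  Pool.Agent.H73.DU Pool.Agent.THF Pool.Agent.TF2

theorem mernD {V T : Finset ℕ} {m j C : ℕ} (hTp : ∀ p ∈ T, p.Prime)
    (hT : ∀ p : ℕ, p.Prime → p < 101 → p ∈ T) (D : LocData T) {a : ℕ → ℝ}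
    (ha : ∀ q : ℕ, |a q| ≤ 2 * Real.sqrt q) (hQ : D.HW a ℚ)
    (H : ∀ (F : Type) [Field F] [NumberField F], ThinD j V T F → 2 ^ m ∣ Module.finrank ℚ F →
      Module.finrank ℚ F ≤ C → D.HW a F)
    (K : Type) [Field K] [NumberField K] (hK : 4 ^ j * bdA (Module.finrank ℚ K) m ≤ C) :
    ∃ N : ℕ, 0 < N ∧ MERn D a K N := by
  obtain ⟨m, A, B, hm, hAB, hrel⟩ := algD V m j hTp (hT 2 Nat.prime_two (by norm_num)) ⟨K⟩
  have hA : ∀ F ∈ A, D.HW a F.F := fun F hF =>
    H F.F (hAB F (List.mem_append.2 (Or.inl hF))).1.1 (hAB F (List.mem_append.2 (Or.inl hF))).1.2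
      ((hAB F (List.mem_append.2 (Or.inl hF))).2.trans hK)
  have hB : ∀ F ∈ List.replicate (m * InfinitePlace.nrRealPlaces K) (⟨ℚ⟩ : NF) ++ B,
      D.HW a F.F := by
    intro F hF
    rcases List.mem_append.1 hF with h1 | h1
    · rw [List.eq_of_mem_replicate h1]
      exact hQ
    · exact H F.F (hAB F (List.mem_append.2 (Or.inr h1))).1.1
        (hAB F (List.mem_append.2 (Or.inr h1))).1.2
        ((hAB F (List.mem_append.2 (Or.inr h1))).2.trans hK)
  obtain ⟨g, g1, g2, g3, g4, c, hc, N, hN, g5⟩ := list_HW D hTp hT ha A hA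
  obtain ⟨f, f1, f2, f3, f4, -⟩ := list_HW D hTp hT ha _ hB
  refine ⟨m, hm, f, g, f1, g1, f2, g2, fun s hs => ?_, ⟨c * Real.exp (-N ^ 2), by positivity, 2,
    fun s hs => ?_⟩, fun s hs => ?_, ?_⟩
  · rw [g4 s hs]
    apply List.prod_ne_zero
    intro h0
    obtain ⟨F, _, hF⟩ := List.mem_map.1 h0
    exact Lam_ne D hTp hT ha F.F hs hF
  · refine le_trans ?_ (g5 s hs)
    rw [mul_assoc, ← Real.exp_add]
    refine mul_le_mul_of_nonneg_left (Real.exp_le_exp.2 ?_) hc.le
    have h1 := abs_nonneg s.im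
    nlinarith [sq_nonneg (|s.im| - N / 2), sq_nonneg N]
  · have h1 := rel_Lam D hTp hT ha hrel hs
    rw [← f4 s hs, List.map_append, List.prod_append, List.map_replicate, List.prod_replicate,
      ← g4 s hs] at h1
    rw [mul_comm]
    exact h1
  · have hwf := w_list D (List.replicate (m * InfinitePlace.nrRealPlaces K) (⟨ℚ⟩ : NF) ++ B)
    have hwg := w_list D A
    set wf := ((List.replicate (m * InfinitePlace.nrRealPlaces K) (⟨ℚ⟩ : NF) ++ B).map
      fun F => D.w F.F).prod with hwf'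
    set wg := (A.map fun F => D.w F.F).prod with hwg'
    refine ⟨wf * wg, ?_, fun s => ?_⟩
    · rw [← mul_self_eq_one_iff]
      calc wf * wg * (wf * wg) = wf ^ 2 * wg ^ 2 := by ring
        _ = 1 := by rw [hwf, hwg, mul_one]
    · have h1 := f3 s
      have h2 := g3 (2 - s)
      rw [sub_sub_cancel] at h2
      rw [h1, h2]
      ring

end Pool.Agent.GK
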