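import Pool.Agent.GK.C.Defs
import Pool.Agent.TF2.K.Cl
import Pool.Agent.THF.I.Vk

/-!
# GK/C-Vk: `GlobW` from Hasse-Weil for the fields `ThinD (i + 1)` of bounded degree

`V'` = the critical places of `K` (`exists_crit`, GJ/X/P1) and one more place.  A quadratic extension `K(√x)`, `x` totally
negative and no square at the places of `V'`, is totally complex and has local degrees divisible by `2 ^ (i + 1)`.
-/

namespace Pool.Agent.GK

open NumberField IsDedekindDomain Pool.Agent.HWR Pool.Agent.QD Pool.Agent.QD.In Pool.Agent.LD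
  Pool.Agent.MD Pool.Agent.THF Pool.Agent.TF2 Pool.Agent.GJ

theorem exists_Vw (i : ℕ) (V : Finset ℕ) {T : Finset ℕ} (hTp : ∀ p ∈ T, p.Prime) (K : Type)
    [Field K] [NumberField K] (hK : DvV i V T K) :
    ∃ V' : Finset (HeightOneSpectrum (𝓞 K)), V'.Nonempty ∧
      (∀ v ∈ V', Away K T v) ∧ ∀ x : Kˣ, KN V' x →
        ∀ (L : Type) [Field L] [NumberField L] [Algebra K L] (θ : L), Module.finrank K L = 2 →
          θ ^ 2 = algebraMap K L (x : K) → ThinD (i + 1) V T L := by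
  classical
  obtain ⟨W, hW1, hW2⟩ := exists_crit i V T hTp K
  obtain ⟨V0, h0, h0T⟩ := exists_Vne K hTp
  refine ⟨W ∪ V0, h0.mono Finset.subset_union_right, ?_, ?_⟩
  · intro v hv
    rcases Finset.mem_union.1 hv with h | h
    · exact hW1 v h
    · exact h0T v h
  · rintro x ⟨hx1, hx2⟩ L _ _ _ θ hd hθ
    refine ⟨⟨fun ψ => ?_⟩, ?_⟩
    · have h1 := hx2 (ψ.comp (algebraMap K L))
      rw [RingHom.comp_apply, ← hθ, map_pow] at h1
      exact absurd h1 (not_lt.2 (sq_nonneg _))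
    · intro p hpV hp hpT w hw
      obtain ⟨v, hv, hvw⟩ := below_mem (K := K) p hp w hw
      rw [locDeg_tower ℚ K L v w hvw]
      by_cases h : 2 ^ (i + 1) ∣ locDeg ℚ v
      · exact h.mul_right _
      · have h1 : v ∈ W := (hW2 v).2 ⟨⟨p, hpV, hp, hpT, hv⟩, h⟩
        have h6 := nonsplit_two L hd x θ hθ v (hx1 v (Finset.mem_union_left _ h1)) w hvw
        rw [h6, pow_succ]
        exact Nat.mul_dvd_mul_right (hK p hpV hp hpT v hv) 2

theorem globW_of {i : ℕ} {V T : Finset ℕ} (hTp : ∀ p ∈ T, p.Prime) (D : LocData T) {a : ℕ → ℝ}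
    {M B : ℕ} (H : ∀ (F : Type) [Field F] [NumberField F], ThinD (i + 1) V T F →
      2 * M ∣ Module.finrank ℚ F → Module.finrank ℚ F ≤ B → D.HW a F) : GlobW i V D a M B := by
  intro K _ _ hK
  obtain ⟨V', h1, h2, h3⟩ := exists_Vw i V hTp K hK.2
  have hq : ∀ (L : Type) [Field L] [NumberField L] [Algebra K L], Module.finrank K L = 2 →
      Lv (2 * M) B 1 L := fun L _ _ _ hd => hK.1.quad2 hd
  refine ⟨V', h1, h2, ?_, ?_⟩
  · intro x hx L _ _ _ θ hd hθ
    have h4 := (hq L hd).mono (j := 0) (by norm_num)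
    exact H L (h3 x hx L θ hd hθ) h4.1 (by simpa using h4.2)
  · intro x hx L _ _ _ θ hd hθ E _ _ _ hE
    have h4 : Lv (2 * M) B 0 E := (hq L hd).quad hE
    exact H E (h3 x hx L θ hd hθ).ext h4.1 (by simpa using h4.2)

end Pool.Agent.GK
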