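import Pool.Agent.TF2.Defs
import Pool.Agent.TF2.K.Cl
import Pool.Agent.GJ.X.P1

/-!
# GK/C-Defs: the class of TF2/Defs with local degrees divisible by `2 ^ i`

As TF2/Defs, for the fields whose local degrees above `V` are divisible by `2 ^ i`.
-/

namespace Pool.Agent.GK

open NumberField IsDedekindDomain Pool.Agent.HWR Pool.Agent.QD Pool.Agent.QD.In Pool.Agent.LD
  Pool.Agent.MD Pool.Agent.THF Pool.Agent.TF2 Pool.Agent.GJ

/-- the degree class, and all local degrees above `V` divisible by `2 ^ i` -/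
def Lw (i : ℕ) (V T : Finset ℕ) (M B j : ℕ) (F : Type) [Field F] [NumberField F] : Prop :=
  Lv M B j F ∧ DvV i V T F

theorem Lw.mono {i : ℕ} {V T : Finset ℕ} {M B j k : ℕ} {F : Type} [Field F] [NumberField F]
    (h : Lw i V T M B k F) (hjk : j ≤ k) : Lw i V T M B j F := ⟨h.1.mono hjk, h.2⟩

theorem Lw.quad {i : ℕ} {V T : Finset ℕ} {M B j : ℕ} {K L : Type} [Field K] [NumberField K]
    [Field L] [NumberField L] [Algebra K L] (h : Lw i V T M B (j + 1) K)
    (hd : Module.finrank K L = 2) : Lw i V T M B j L := ⟨h.1.quad hd, dvV_ext (K := K) h.2⟩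

/-- totally complex, and all local degrees above `V` divisible by `2 ^ i` -/
def ThinD (i : ℕ) (V T : Finset ℕ) (F : Type) [Field F] [NumberField F] : Prop :=
  IsEmpty (F →+* ℝ) ∧ DvV i V T F

theorem ThinD.ext {i : ℕ} {V T : Finset ℕ} {K L : Type} [Field K] [NumberField K] [Field L]
    [NumberField L] [Algebra K L] (h : ThinD i V T K) : ThinD i V T L :=
  ⟨⟨fun ψ => h.1.false (ψ.comp (algebraMap K L))⟩, dvV_ext (K := K) h.2⟩

variable (i : ℕ) (V : Finset ℕ) {T : Finset ℕ} (D : LocData T) (a : ℕ → ℝ) (M B : ℕ)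

/-- every number field of the class has a set of places with `HWN`, `HWN4` -/
def GlobW : Prop :=
  ∀ (F : Type) [Field F] [NumberField F], Lw i V T M B 2 F →
    ∃ V' : Finset (HeightOneSpectrum (𝓞 F)),
      V'.Nonempty ∧ (∀ v ∈ V', Away F T v) ∧ HWN D a V' ∧ HWN4 D a V'

/-- the completed L-functions of the fields of the class are meromorphic -/
def MerW : Prop :=
  ∀ (F : Type) [Field F] [NumberField F], Lw i V T M B 0 F → ∃ N : ℕ, 0 < N ∧ MERn D a F N

/-- Hasse-Weil up to the sign, and with the exact sign for quadratic extensions of totally positive or totally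
negative elements -/
def ExW (k : ℕ) : Prop :=
  (∀ (K : Type) [Field K] [NumberField K], Lw i V T M B k K → HWpm D a K) ∧
    ∀ (K : Type) [Field K] [NumberField K], Lw i V T M B (k + 1) K → ∀ x : Kˣ, ¬ IsSquare x →
      ((∀ φ : K →+* ℝ, 0 < φ (x : K)) ∨ ∀ φ : K →+* ℝ, φ (x : K) < 0) →
      ∀ (F : Type) [Field F] [NumberField F] [Algebra K F] (θ : F), Module.finrank K F = 2 →
        θ ^ 2 = algebraMap K F (x : K) → D.HW a F

end Pool.Agent.GK
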