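import Pool.Agent.GK.C.Main
import Pool.Agent.GK.C.Sgn
import Pool.Agent.GK.C.Mer
import Pool.Agent.GK.C.Vk
import Pool.Agent.GK.X.Exy
import Pool.Agent.TF2.X.R0

/-!
# GK/C-Cor: from `ThinD (i + 1)` to all fields with local degrees divisible by `2 ^ i`

As TF2/F/Final (`core`), for the class `Lw`.
-/

namespace Pool.Agent.GK

open NumberField IsDedekindDomain Pool.Agent.HWR Pool.Agent.QD Pool.Agent.QD.In Pool.Agent.LD
  Pool.Agent.MD Pool.Agent.THF Pool.Agent.TF2 Pool.Agent.GJ Pool.Agent.H73.AL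

open Nat in
private theorem cor_le (x m : ℕ) : x ≤ bdA x m := by
  unfold bdA
  have h1 : x ≤ x ! := Nat.self_le_factorial x
  have h2 : 0 < 2 ^ (m + 3) := by positivity
  have h3 : 0 < 2 ^ (2 * x !) ^ 2 := by positivity
  calc x ≤ x ! := h1
    _ ≤ 2 * x ! := by omega
    _ ≤ 2 * x ! * 2 ^ (2 * x !) ^ 2 := Nat.le_mul_of_pos_right _ h3
    _ ≤ _ := Nat.le_mul_of_pos_left _ h2

/-- the bound for the degrees -/
def bC (i m n : ℕ) : ℕ := 2 * (4 ^ (i + 1) * bdA (n * 2 ^ (13 + m)) (m + 1))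

theorem clW (i m : ℕ) : ∃ b : ℕ → ℕ, ClW i m b := by
  refine ⟨bC i m, ?_⟩
  intro T hTp hT D a ha hfr V n hQ hR H K _ _ hKi hKm hKn
  have hn : 0 < n := lt_of_lt_of_le Module.finrank_pos hKn
  set B : ℕ := n * 2 ^ (13 + m) with hB
  have hb : bC i m n = 2 * (4 ^ (i + 1) * bdA B (m + 1)) := rfl
  have h4 : 0 < 4 ^ (i + 1) := by positivity
  have hle : ∀ x : ℕ, x ≤ B → 4 ^ (i + 1) * bdA x (m + 1) ≤ 4 ^ (i + 1) * bdA B (m + 1) :=
    fun x hx => Nat.mul_le_mul_left _ (bdA_mono hx _)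
  have hBb : B ≤ 4 ^ (i + 1) * bdA B (m + 1) :=
    (cor_le B (m + 1)).trans (Nat.le_mul_of_pos_left _ h4)
  generalize 4 ^ (i + 1) * bdA B (m + 1) = β at hb hle hBb
  have hG : GlobW i V D a (2 ^ m) B := by
    refine globW_of hTp D fun F _ _ h1 h2 h3 => H F h1 (by rw [pow_succ']; exact h2) ?_
    rw [hb]
    omega
  have hM : MerW i V D a (2 ^ m) B := by
    intro F _ _ hF
    refine mernD (V := V) (j := i + 1) (m := m + 1) (C := bC i m n) hTp hT D ha hQ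
      (fun F _ _ h1 h2 h3 => H F h1 h2 h3) F ?_
    have h1 : Module.finrank ℚ F ≤ B := by simpa using hF.1.2
    rw [hb]
    have := hle _ h1
    omega
  have hE := exL_of hTp hT D ha hfr hG hM
  have h13 : 2 ^ 13 ≤ 2 ^ (13 + m) := Nat.pow_le_pow_right two_pos (by omega)
  have hK : Lw i V T (2 ^ m) B 13 K :=
    ⟨⟨hKm, by rw [hB]; exact Nat.mul_le_mul hKn h13⟩, hKi⟩
  have hKB : Module.finrank ℚ K ≤ B := by
    have h1 : 0 < 2 ^ (13 + m) := by positivity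
    exact hKn.trans (Nat.le_mul_of_pos_right _ h1)
  refine ⟨hE.1 K (hK.mono (by norm_num)), fun F _ _ _ hd => ?_⟩
  obtain ⟨R0, hR1, hR0⟩ := exists_R0 m
  obtain ⟨hRa, hRb⟩ := hR R0.F hR0 hR1
  have hR2 : 0 < InfinitePlace.nrRealPlaces R0.F := by
    have h6 := InfinitePlace.card_add_two_mul_card_eq_rank R0.F
    rw [hR0, hR1] at h6
    have h7 : 0 < 2 ^ m := by positivity
    omega
  have hR0B : Module.finrank ℚ R0.F ≤ B := by
    rw [hR1, hB]
    calc 2 ^ m ≤ 2 ^ (13 + m) := Nat.pow_le_pow_right two_pos (by omega)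
      _ ≤ n * 2 ^ (13 + m) := Nat.le_mul_of_pos_left _ hn
  obtain ⟨m1, m2, A, Bl, h1, h2, h3, h5⟩ :=
    algRD V (m + 1) (i + 1) hTp (hT 2 Nat.prime_two (by norm_num)) ⟨K⟩ R0 hR2
  have hAB : ∀ F ∈ A ++ Bl, IsEmpty (F.F →+* ℝ) ∧ AllQ D a F.F := by
    intro F hF
    obtain ⟨⟨h6, h8⟩, h7⟩ := h3 F hF
    have h9 : Module.finrank ℚ F.F ≤ β := h7.trans (max_le (hle _ hKB) (hle _ hR0B))
    refine ⟨h6.1, pm_of_hw D a (H F.F h6 h8 (by rw [hb]; omega)), fun E _ _ _ hE => ?_⟩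
    have h10 : Module.finrank ℚ E = Module.finrank ℚ F.F * 2 := by
      rw [← Module.finrank_mul_finrank ℚ F.F E, hE]
    refine H E h6.ext ?_ ?_
    · rw [h10]
      exact h8.mul_right 2
    · rw [h10, hb]
      omega
  exact exact_signN hTp hT D ha hfr hE K hK h1 hAB
    (ndk_allQ hTp hT D ha hfr R0.F ⟨pm_of_hw D a hRa, fun F _ _ _ hd => hRb F hd⟩) h2 h5 F hd

end Pool.Agent.GK
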