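import Pool.Agent.GK.X.Tc
import Pool.Agent.GJ.G.G3A
import Pool.Agent.GJ.X.Lst
import Pool.Agent.TF2.L.AlgR

/-!
# GK/C-Deep: relations with totally complex fields with local degrees divisible by `2 ^ j`

`two_TH`: for a totally complex `H` of level `j` and good characters `a`, `b` of `H` the relation `v4_idx` expresses `2 pc H` by
totally complex subgroups of level `j + 1`.  `algD`, `algRD`: as `alg2`, `algR` (TF2/L).
-/

namespace Pool.Agent.GK

open Pool.Agent.GJ MulAction Pool.Agent.H73.DU Pool.Agent.H73.AL Pool.Agent.LD Pool.Agent.TS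
  Pool.Agent.TF2

open NumberField

/-- the span of the totally complex subgroups of level `j` -/
def TH (V T : Finset ℕ) (j n B : ℕ) : AddSubgroup (Subgroup GQ → ℤ) :=
  AddSubgroup.closure {f | (∃ H : Subgroup GQ, Ci V T j H ∧ TC H ∧ n ∣ H.index ∧ H.index ≤ B ∧
    f = pc H) ∨ ∀ U ∈ famT T, f U = 0}

variable {V T : Finset ℕ}

theorem mem_TH {j n B : ℕ} {H : Subgroup GQ} (h : Ci V T j H) (hc : TC H) (hn : n ∣ H.index)
    (hB : H.index ≤ B) : pc H ∈ TH V T j n B :=
  AddSubgroup.subset_closure (Or.inl ⟨H, h, hc, hn, hB, rfl⟩)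

theorem zero_TH {j n B : ℕ} {f : Subgroup GQ → ℤ} (h : ∀ U ∈ famT T, f U = 0) :
    f ∈ TH V T j n B := AddSubgroup.subset_closure (Or.inr h)

theorem congr_TH {j n B : ℕ} {f g : Subgroup GQ → ℤ} (h : ∀ U ∈ famT T, f U = g U)
    (hg : g ∈ TH V T j n B) : f ∈ TH V T j n B := by
  have : f = g + (f - g) := by abel
  rw [this]
  refine AddSubgroup.add_mem _ hg (zero_TH fun U hU => ?_)
  rw [Pi.sub_apply, h U hU, sub_self]

theorem two_TH (hTp : ∀ p ∈ T, p.Prime) (h2 : 2 ∈ T) {j n B : ℕ} {f : Subgroup GQ → ℤ}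
    (hf : f ∈ TH V T j n B) : (2 : ℤ) • f ∈ TH V T (j + 1) n (4 * B) := by
  unfold TH at hf
  induction hf using AddSubgroup.closure_induction with
  | mem x hx =>
    rcases hx with ⟨H, hH, hc, hn, hB, rfl⟩ | hx
    · by_cases hV : ∃ P : Pl, Pin V T P
      · obtain ⟨a, b, ha, hb, hab, va, vb, vab, -, -⟩ := exists_good hTp h2 hH
        obtain ⟨P, hP⟩ := hV
        have na := not_tr (va P hP)
        have nb := not_tr (vb P hP)
        have nab := not_tr (vab P hP)
        obtain ⟨⟨-, g2⟩, g4⟩ := v4_idx (T := T) hH.op ha.chr hb.chr na nb nab ha.ttr hb.ttr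
        have key : ∀ {χ : GQ → ℤˣ}, GT V T j H χ → ¬ Tr H χ →
            pc (kr H χ) ∈ TH V T (j + 1) n (4 * B) := by
          intro χ h1 h3
          have h4 := kr_index' h1.chr.1 h3
          refine mem_TH ((good_iff hH h1.chr).1 h1.good) (hc.mono (kr_le H χ)) ?_ ?_
          · rw [h4]
            exact hn.mul_left 2
          · rw [h4]
            omega
        refine congr_TH g4 (AddSubgroup.sub_mem _ (AddSubgroup.add_mem _ (AddSubgroup.add_mem _
          (key ha na) (key hb nb)) (key hab nab)) ?_)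
        refine mem_TH (Ci.mono ((good_iff hH ha.chr).1 ha.good) inf_le_left ?_)
          (hc.mono (inf_le_left.trans (kr_le H a))) ?_ ?_
        · rw [Subgroup.coe_inf]
          exact ha.chr.2.inter hb.chr.2
        · rw [g2]
          exact hn.mul_left 4
        · rw [g2]
          omega
      · have h1 : Ci V T (j + 1) H := hH.succ_of fun P hP => absurd ⟨P, hP⟩ hV
        exact AddSubgroup.zsmul_mem _ (mem_TH h1 hc hn (by omega)) 2
    · refine zero_TH fun U hU => ?_
      rw [Pi.smul_apply, hx U hU, smul_zero]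
  | zero =>
    rw [smul_zero]
    exact AddSubgroup.zero_mem _
  | add x y _ _ hx hy =>
    rw [smul_add]
    exact AddSubgroup.add_mem _ hx hy
  | neg x _ hx =>
    rw [smul_neg]
    exact AddSubgroup.neg_mem _ hx

theorem pow_TH (hTp : ∀ p ∈ T, p.Prime) (h2 : 2 ∈ T) {n B : ℕ} {f : Subgroup GQ → ℤ}
    (hf : f ∈ TH V T 0 n B) (j : ℕ) : ((2 : ℤ) ^ j) • f ∈ TH V T j n (4 ^ j * B) := by
  induction j with
  | zero => simpa using hf
  | succ j ih =>
    have h1 := two_TH hTp h2 ih
    rw [smul_smul, ← pow_succ'] at h1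
    rw [pow_succ' 4, mul_assoc]
    exact h1

theorem th_lists {j n B : ℕ} {f : Subgroup GQ → ℤ} (hf : f ∈ TH V T j n B) :
    ∃ A A' : List NF, (∀ X ∈ A ++ A', ThinD j V T X.F ∧ n ∣ Module.finrank ℚ X.F ∧
      Module.finrank ℚ X.F ≤ B) ∧ ∀ U ∈ famT T, f U + sM A U = sM A' U := by
  unfold TH at hf
  induction hf using AddSubgroup.closure_induction with
  | mem f hf =>
    rcases hf with ⟨H, hH, hc, hn, hB, rfl⟩ | h
    · obtain ⟨F, ψ, hψ, hm, hd⟩ := exists_nf H hH.1
      refine ⟨[], [F], ?_, fun U _ => ?_⟩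
      · intro X hX
        simp only [List.nil_append, List.mem_singleton] at hX
        subst hX
        rw [hd]
        exact ⟨(thinD_iff ψ).1 (by rw [hψ]; exact ⟨hH, hc⟩), hn, hB⟩
      · simp [sM_nil, sM_cons, hm]
    · exact ⟨[], [], by simp, fun U hU => by simp [sM_nil, h U hU]⟩
  | zero => exact ⟨[], [], by simp, fun U _ => by simp [sM_nil]⟩
  | add f f' _ _ h h' =>
    obtain ⟨A, C, a1, a2⟩ := h
    obtain ⟨A', C', b1, b2⟩ := h'
    refine ⟨A ++ A', C ++ C', ?_, fun U hU => ?_⟩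
    · intro X hX
      simp only [List.mem_append] at hX a1 b1
      rcases hX with (hX | hX) | (hX | hX)
      · exact a1 X (Or.inl hX)
      · exact b1 X (Or.inl hX)
      · exact a1 X (Or.inr hX)
      · exact b1 X (Or.inr hX)
    · simp only [sM_append, Pi.add_apply]
      linarith [a2 U hU, b2 U hU]
  | neg f _ h =>
    obtain ⟨A, C, a1, a2⟩ := h
    refine ⟨C, A, ?_, fun U hU => ?_⟩
    · intro X hX
      simp only [List.mem_append] at hX a1
      exact a1 X hX.symm
    · rw [Pi.neg_apply]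
      linarith [a2 U hU]

/-- as `alg2`, with totally complex fields with local degrees divisible by `2 ^ j` -/
theorem algD (V : Finset ℕ) (m j : ℕ) {T : Finset ℕ} (hTp : ∀ p ∈ T, p.Prime) (h2 : 2 ∈ T)
    (K : NF) : ∃ (k : ℕ) (A B : List NF), 0 < k ∧
      (∀ F ∈ A ++ B, (ThinD j V T F.F ∧ 2 ^ m ∣ Module.finrank ℚ F.F) ∧
        Module.finrank ℚ F.F ≤ 4 ^ j * bdA (Module.finrank ℚ K.F) m) ∧
      Rel T (List.replicate k K ++ A)
        (List.replicate (k * InfinitePlace.nrRealPlaces K.F) ⟨ℚ⟩ ++ B) := by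
  obtain ⟨k, A, B, hk, hAB, hrel⟩ := alg2 V m hTp h2 K
  have hmem : ∀ L : List NF, (∀ F ∈ L, Ev V T m F.F ∧
      Module.finrank ℚ F.F ≤ bdA (Module.finrank ℚ K.F) m) →
      (fun U => sM L U) ∈ TH V T 0 (2 ^ m) (bdA (Module.finrank ℚ K.F) m) := by
    intro L
    induction L with
    | nil => intro _; exact AddSubgroup.zero_mem _
    | cons F L ih =>
      intro hL
      have e : (fun U => sM (F :: L) U) = pc (stb (Classical.arbitrary (F.F →+* AlgebraicClosure ℚ))) +
          fun U => sM L U := by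
        funext U
        rw [Pi.add_apply, sM_cons, mark_eq_pc F.F (Classical.arbitrary _)]
        rfl
      rw [e]
      obtain ⟨h1, h3⟩ := hL F (List.mem_cons_self ..)
      refine AddSubgroup.add_mem _ (mem_TH (Ci.zero (stab_open F.F _)) (tc_of_empty _ h1.1) ?_ ?_)
        (ih fun X hX => hL X (List.mem_cons_of_mem F hX))
      · rw [index_stb]
        exact h1.2.1
      · rw [index_stb]
        exact h3
  have hf : ((fun U => sM B U) - fun U => sM A U) ∈
      TH V T 0 (2 ^ m) (bdA (Module.finrank ℚ K.F) m) :=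
    AddSubgroup.sub_mem _ (hmem B fun F hF => hAB F (List.mem_append.2 (Or.inr hF)))
      (hmem A fun F hF => hAB F (List.mem_append.2 (Or.inl hF)))
  obtain ⟨A', B', g1, g2⟩ := th_lists (pow_TH hTp h2 hf j)
  refine ⟨2 ^ j * k, A', B', by positivity, fun F hF => ?_, fun U hU => ?_⟩
  · obtain ⟨g3, g4, g5⟩ := g1 F hF
    exact ⟨⟨g3, g4⟩, g5⟩
  · have e1 := hrel U hU
    have e2 := g2 U hU
    rw [Pi.smul_apply, Pi.sub_apply] at e2
    simp only [sM, List.map_append, List.sum_append, List.map_replicate, List.sum_replicate,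
      smul_eq_mul, nsmul_eq_mul] at e1 e2 ⊢
    push_cast at e1 e2 ⊢
    linear_combination (2 : ℤ) ^ j * e1 + e2

theorem algRD (V : Finset ℕ) (m j : ℕ) {T : Finset ℕ} (hTp : ∀ p ∈ T, p.Prime) (h2 : 2 ∈ T)
    (K R0 : NF) (hR : 0 < InfinitePlace.nrRealPlaces R0.F) :
    ∃ (m1 m2 : ℕ) (A B : List NF), 0 < m1 ∧
      m2 * InfinitePlace.nrRealPlaces R0.F = m1 * InfinitePlace.nrRealPlaces K.F ∧
      (∀ F ∈ A ++ B, (ThinD j V T F.F ∧ 2 ^ m ∣ Module.finrank ℚ F.F) ∧ Module.finrank ℚ F.F ≤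
        max (4 ^ j * bdA (Module.finrank ℚ K.F) m) (4 ^ j * bdA (Module.finrank ℚ R0.F) m)) ∧
      Rel T (List.replicate m1 K ++ A) (List.replicate m2 R0 ++ B) := by
  obtain ⟨k, A, B, hk, hAB, hrel⟩ := algD V m j hTp h2 K
  obtain ⟨k', A', B', hk', hAB', hrel'⟩ := algD V m j hTp h2 R0
  set r := InfinitePlace.nrRealPlaces K.F with hr
  set r' := InfinitePlace.nrRealPlaces R0.F with hr'
  refine ⟨k' * r' * k, k * r * k', mul (k' * r') A ++ mul (k * r) B', mul (k * r) A' ++ mul (k' * r') B,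
    by positivity, by ring, ?_, ?_⟩
  · intro F hF
    have h1 : F ∈ A ++ B ∨ F ∈ A' ++ B' := by
      rcases List.mem_append.1 hF with h | h
      · rcases List.mem_append.1 h with h | h
        · exact Or.inl (List.mem_append.2 (Or.inl (mem_mul h)))
        · exact Or.inr (List.mem_append.2 (Or.inr (mem_mul h)))
      · rcases List.mem_append.1 h with h | h
        · exact Or.inr (List.mem_append.2 (Or.inl (mem_mul h)))
        · exact Or.inl (List.mem_append.2 (Or.inr (mem_mul h)))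
    rcases h1 with h | h
    · exact ⟨(hAB F h).1, (hAB F h).2.trans (le_max_left _ _)⟩
    · exact ⟨(hAB' F h).1, (hAB' F h).2.trans (le_max_right _ _)⟩
  · intro U hU
    have e1 := hrel U hU
    have e2 := hrel' U hU
    simp only [List.map_append, List.sum_append, List.map_replicate, List.sum_replicate,
      sum_mul] at e1 e2 ⊢
    simp only [nsmul_eq_mul] at e1 e2 ⊢
    push_cast at e1 e2 ⊢
    linear_combination ((k' : ℤ) * r') * e1 - ((k : ℤ) * r) * e2

end Pool.Agent.GK
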