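import Pool.Agent.GK.C.Sym
import Pool.Agent.TF2.O.Int

/-!
# GK/C-Int: copy of TF2/O/Int for the smaller class
-/

namespace Pool.Agent.GK

open NumberField IsDedekindDomain Pool.Agent.HWR Pool.Agent.QD Pool.Agent.QD.In Pool.Agent.LD
  Pool.Agent.MD Pool.Agent.THF Pool.Agent.TF2 Pool.Agent.H73.AL

variable {ie : ℕ} {Wv : Finset ℕ}

theorem ioL {T : Finset ℕ} (hTp : ∀ p ∈ T, p.Prime)
    (hT : ∀ p : ℕ, p.Prime → p < 101 → p ∈ T) (D : LocData T) {a : ℕ → ℝ}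
    (ha : ∀ q : ℕ, |a q| ≤ 2 * Real.sqrt q) (hfr : FrobRel T a) {M B : ℕ} (hG : GlobW ie Wv D a M B)
    (hM : MerW ie Wv D a M B) (K : Type) [Field K] [NumberField K] (hK : Lw ie Wv T M B 4 K) : IO D a K := by
  obtain ⟨V, -, -, hV, -⟩ := hG K (hK.mono (by norm_num))
  refine intOL hTp hT D ha hfr (sxL hTp hT D ha hfr hG K (hK.mono (by norm_num)))
    (hM K (hK.mono (by norm_num))) V fun x hx hxs => ⟨pm_of_hw D a ?_, ?_⟩
  · exact hV x hx (qf hxs).L (qf hxs).θ (qf hxs).deg (qf hxs).sq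
  · exact sxL hTp hT D ha hfr hG (qf hxs).L (hK.quad (qf hxs).deg)

/-- the package for the fields of the class -/
theorem pkL {T : Finset ℕ} (hTp : ∀ p ∈ T, p.Prime)
    (hT : ∀ p : ℕ, p.Prime → p < 101 → p ∈ T) (D : LocData T) {a : ℕ → ℝ}
    (ha : ∀ q : ℕ, |a q| ≤ 2 * Real.sqrt q) (hfr : FrobRel T a) {M B : ℕ} (hG : GlobW ie Wv D a M B)
    (hM : MerW ie Wv D a M B) (K : Type) [Field K] [NumberField K] (hK : Lw ie Wv T M B 4 K) : Pk D a K :=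
  ⟨sxL hTp hT D ha hfr hG K (hK.mono (by norm_num)), ioL hTp hT D ha hfr hG hM K hK,
    hM K (hK.mono (by norm_num))⟩

end Pool.Agent.GK
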