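import Pool.Agent.GK.C.V4
import Pool.Agent.TF2.G.Main

/-!
# GK/C-Main: copy of TF2/G/Main for the smaller class
-/

namespace Pool.Agent.GK

open NumberField IsDedekindDomain Pool.Agent.HWR Pool.Agent.QD Pool.Agent.QD.In Pool.Agent.LD
  Pool.Agent.MD Pool.Agent.THF Pool.Agent.TF2 Pool.Agent.THG Pool.Agent.H73.AL

variable {ie : ℕ} {Wv : Finset ℕ}

private theorem chi_one {K : Type} [Field K] (x : Kˣ) {e : (K →+* ℝ) → ℤ} (he : ∀ φ, e φ = 1) :
    chi e x = 1 := by
  rw [chi]
  refine finprod_eq_one_of_forall_eq_one fun φ => ?_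
  rw [he φ, ite_self]

private theorem kk_one (K : Type) [Field K] [NumberField K] :
    kk (fun _ : K →+* ℝ => (1 : ℤ)) = InfinitePlace.nrRealPlaces K := by
  rw [kk, Pool.Agent.QD.N4.card_real]
  exact Nat.card_congr (Equiv.subtypeUnivEquiv fun _ => rfl)

variable {T : Finset ℕ} (hTp : ∀ p ∈ T, p.Prime) (hT : ∀ p : ℕ, p.Prime → p < 101 → p ∈ T)
  (D : LocData T) {a : ℕ → ℝ} (ha : ∀ q : ℕ, |a q| ≤ 2 * Real.sqrt q)

include hTp hT ha

/-- the exact sign for all quadratic extensions of `K`, from a relation with a reference field `R0` -/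
theorem exact_signN (hfr : FrobRel T a) {M B : ℕ}
    (hE : ExW ie Wv D a M B 11) (K : Type) [Field K] [NumberField K] (hK : Lw ie Wv T M B 13 K)
    {m1 m2 : ℕ} {A Bl : List NF} {R0 : NF} (hm : 0 < m1)
    (hAB : ∀ F ∈ A ++ Bl, IsEmpty (F.F →+* ℝ) ∧ AllQ D a F.F)
    (hR0 : NDk T a R0.F (InfinitePlace.nrRealPlaces R0.F))
    (hr : m2 * InfinitePlace.nrRealPlaces R0.F = m1 * InfinitePlace.nrRealPlaces K)
    (hrel : Rel T (List.replicate m1 ⟨K⟩ ++ A) (List.replicate m2 R0 ++ Bl)) (F : Type) [Field F]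
    [NumberField F] [Algebra K F] (hd : Module.finrank K F = 2) : D.HW a F := by
  classical
  by_cases hall : AllQ D a K
  · exact hall.2 F hd
  have hEK : ExK D a K := exK_of_exL hE hK
  obtain ⟨e, he, hsg⟩ := exists_chiK hTp hT D ha K hEK
  have hne : ∀ G : NF, AllQ D a G.F → G ≠ ⟨K⟩ := by
    rintro G hG rfl
    exact hall hG
  set k : NF → ℕ := fun G => if G = ⟨K⟩ then kk e else InfinitePlace.nrRealPlaces G.F with hk
  have hkK : k ⟨K⟩ = kk e := if_pos rfl
  have hkne : ∀ G : NF, AllQ D a G.F → k G = InfinitePlace.nrRealPlaces G.F :=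
    fun G hG => if_neg (hne G hG)
  have nK : NDk T a K (k ⟨K⟩) := by
    rw [hkK]
    exact ndk_of hTp hT D ha hfr K hEK.1 he hsg
  have r0 : ∀ G ∈ A ++ Bl, InfinitePlace.nrRealPlaces G.F = 0 := by
    intro G hG
    have h1 : IsEmpty (G.F →+* ℝ) := (hAB G hG).1
    rw [Pool.Agent.QD.N4.card_real]
    exact Nat.card_eq_zero.2 (Or.inl h1)
  have h := cmpL2 hTp hT ha k (fun G => InfinitePlace.nrRealPlaces G.F)
    (A := List.replicate m1 ⟨K⟩ ++ A) (B := List.replicate m2 R0 ++ Bl)
    (fun G hG => by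
      rcases List.mem_append.1 hG with h1 | h1
      · rw [List.eq_of_mem_replicate h1]
        exact nK
      · have h2 := (hAB G (List.mem_append.2 (Or.inl h1))).2
        rw [hkne G h2]
        exact ndk_allQ hTp hT D ha hfr G.F h2)
    (fun G hG => by
      rcases List.mem_append.1 hG with h1 | h1
      · rw [List.eq_of_mem_replicate h1]
        exact hR0
      · exact ndk_allQ hTp hT D ha hfr G.F (hAB G (List.mem_append.2 (Or.inr h1))).2) hrel
  have hA : (A.map fun G => k G).sum = 0 :=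
    List.sum_eq_zero fun x hx => by
      obtain ⟨G, hG, rfl⟩ := List.mem_map.1 hx
      rw [hkne G (hAB G (List.mem_append.2 (Or.inl hG))).2]
      exact r0 G (List.mem_append.2 (Or.inl hG))
  have hB : (Bl.map fun G => InfinitePlace.nrRealPlaces G.F).sum = 0 :=
    List.sum_eq_zero fun x hx => by
      obtain ⟨G, hG, rfl⟩ := List.mem_map.1 hx
      exact r0 G (List.mem_append.2 (Or.inr hG))
  rw [List.map_append, List.map_append, List.sum_append, List.sum_append, hA, hB,
    List.map_replicate, List.map_replicate, List.sum_replicate, List.sum_replicate] at h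
  simp only [smul_eq_mul, add_zero] at h
  rw [hkK, hr] at h
  have h1 : kk e = InfinitePlace.nrRealPlaces K := Nat.eq_of_mul_eq_mul_left hm h
  have h3 : ∀ φ : K →+* ℝ, e φ = 1 := by
    intro φ
    by_contra hn
    rw [kk, Pool.Agent.QD.N4.card_real] at h1
    have h2 : Nat.card {φ : K →+* ℝ // e φ = 1} < Nat.card (K →+* ℝ) :=
      Finite.card_subtype_lt hn
    omega
  obtain ⟨b, θ, hb, hθ⟩ := exists_root (K := K) F hd
  refine hw_of_SG hTp hT D ha hb F hd θ hθ ?_
  have h4 := hsg b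
  rwa [chi_one b h3] at h4

end Pool.Agent.GK
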