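import Pool.Agent.GK.C.Defs
import Pool.Agent.TF2.K.SymF

/-!
# GK/C-Sym: copy of TF2/K/SymF for the smaller class
-/

namespace Pool.Agent.GK

open NumberField IsDedekindDomain Pool.Agent.HWR Pool.Agent.QD Pool.Agent.QD.In Pool.Agent.LD
  Pool.Agent.MD Pool.Agent.THF Pool.Agent.TF2 Pool.Agent.H73.AL

variable {ie : ℕ} {Wv : Finset ℕ}

/-- STEP 1 and STEP 2 for the fields of the class -/
theorem step1L {T : Finset ℕ} (hTp : ∀ p ∈ T, p.Prime)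
    (hT : ∀ p : ℕ, p.Prime → p < 101 → p ∈ T) (D : LocData T) {a : ℕ → ℝ}
    (ha : ∀ q : ℕ, |a q| ≤ 2 * Real.sqrt q) (hfr : FrobRel T a) {M B : ℕ} (hG : GlobW ie Wv D a M B)
    (K : Type) [Field K] [NumberField K] (hK : Lw ie Wv T M B 2 K) : RH D a K := by
  obtain ⟨V, hne, hVT, H, -⟩ := hG K hK
  obtain ⟨T1, S, hS, hST, hV⟩ := exists_S K T hTp (hT 2 Nat.prime_two (by norm_num)) V
  exact step1N hTp hT D ha hS hST
    (sn_of hTp hT D ha (sqRel_of_frob K T a hfr) hS hST hV hVT hne H)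

theorem rhqL {T : Finset ℕ} (hTp : ∀ p ∈ T, p.Prime)
    (hT : ∀ p : ℕ, p.Prime → p < 101 → p ∈ T) (D : LocData T) {a : ℕ → ℝ}
    (ha : ∀ q : ℕ, |a q| ≤ 2 * Real.sqrt q) (hfr : FrobRel T a) {M B : ℕ} (hG : GlobW ie Wv D a M B)
    (K : Type) [Field K] [NumberField K] (hK : Lw ie Wv T M B 3 K) : RHq D a K :=
  ⟨step1L hTp hT D ha hfr hG K (hK.mono (by norm_num)), fun _ hx =>
    step1L hTp hT D ha hfr hG (qf hx).L (hK.quad (qf hx).deg)⟩

theorem sxL {T : Finset ℕ} (hTp : ∀ p ∈ T, p.Prime)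
    (hT : ∀ p : ℕ, p.Prime → p < 101 → p ∈ T) (D : LocData T) {a : ℕ → ℝ}
    (ha : ∀ q : ℕ, |a q| ≤ 2 * Real.sqrt q) (hfr : FrobRel T a) {M B : ℕ} (hG : GlobW ie Wv D a M B)
    (K : Type) [Field K] [NumberField K] (hK : Lw ie Wv T M B 3 K) : SX D a K := by
  have hR := rhqL hTp hT D ha hfr hG K hK
  obtain ⟨V, hne, hVT, H, H4⟩ := hG K (hK.mono (by norm_num))
  obtain ⟨T1, S, hS, hST, hV⟩ := exists_S K T hTp (hT 2 Nat.prime_two (by norm_num)) V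
  exact symFN hT D ha
    (sn_of hTp hT D ha (sqRel_of_frob K T a hfr) hS hST hV hVT hne H) hR.1
    (fun y0 => fam2L hTp hT D ha hS hST hV hVT hne H H4 hR y0)

end Pool.Agent.GK
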