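import Pool.Agent.GK.C.Int
import Pool.Agent.TF2.E.Fin
import Pool.Agent.THF.R.End

/-!
# GK/C-Tower: copy of TF2/E/Tower for the smaller class
-/

namespace Pool.Agent.GK

open NumberField IsDedekindDomain Pool.Agent.HWR Pool.Agent.QD Pool.Agent.QD.In Pool.Agent.LD
  Pool.Agent.MD Pool.Agent.THF Pool.Agent.TF2 Pool.Agent.H73.AL

variable {ie : ℕ} {Wv : Finset ℕ}

theorem towerL {T : Finset ℕ} (hTp : ∀ p ∈ T, p.Prime)
    (hT : ∀ p : ℕ, p.Prime → p < 101 → p ∈ T) (D : LocData T) {a : ℕ → ℝ}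
    (ha : ∀ q : ℕ, |a q| ≤ 2 * Real.sqrt q) (hfr : FrobRel T a) {M B : ℕ} (hG : GlobW ie Wv D a M B)
    (hM : MerW ie Wv D a M B) {z0 : ℂ} (hz : z0.re = 1) (j : ℕ) (hj : j ≤ 6) :
    ∀ (K : Type) [Field K] [NumberField K], Lw ie Wv T M B (5 + j) K → ∀ k : ℤ,
      LogO (RF D a K) z0 k → -((6 - j : ℕ) : ℤ) ≤ k := by
  induction j with
  | zero =>
    intro K _ _ hK k hk
    have h1 := lbOL hTp hT D ha hfr (sxL hTp hT D ha hfr hG K (hK.mono (by norm_num))) hz hk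
    have h2 : ((-6 : ℤ) : ℝ) ≤ k := by
      push_cast
      exact h1
    have h3 : (-6 : ℤ) ≤ k := by exact_mod_cast h2
    simpa using h3
  | succ j ih =>
    intro K _ _ hK k hk
    have ih' := ih (by omega)
    have h1 := ih' K (hK.mono (by omega)) k hk
    by_contra hcon
    push Not at hcon
    have hk1 : k = -((6 - j : ℕ) : ℤ) := by omega
    obtain ⟨V, hVn, hVT, H, H4⟩ := hG K (hK.mono (by omega))
    refine no_pole_step hTp hT D ha hfr hVn hVT H H4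
      (pkL hTp hT D ha hfr hG hM K (hK.mono (by omega)))
      (fun x hx => pkL hTp hT D ha hfr hG hM (qf hx).L
        ((hK.quad (j := 5 + j) (qf hx).deg).mono (by omega))) hz (m := 6 - j) (by omega) ?_ ?_
    · have h2 : -(((6 - j : ℕ) : ℕ) : ℝ) = ((k : ℤ) : ℝ) := by
        rw [hk1]
        push_cast
        rfl
      rw [h2]
      exact hk
    · intro x hx o ho
      have hL : Lw ie Wv T M B (5 + j) (qf hx).L := hK.quad (j := 5 + j) (qf hx).deg
      obtain ⟨k', hk'⟩ := ioL hTp hT D ha hfr hG hM (qf hx).L (hL.mono (by omega)) z0 hz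
      rw [logO_unique ho hk']
      have h3 := ih' (qf hx).L hL k' hk'
      have h4 : ((-((6 - j : ℕ) : ℤ) : ℤ) : ℝ) ≤ k' := by exact_mod_cast h3
      push_cast at h4
      exact h4

theorem no_poleL {T : Finset ℕ} (hTp : ∀ p ∈ T, p.Prime)
    (hT : ∀ p : ℕ, p.Prime → p < 101 → p ∈ T) (D : LocData T) {a : ℕ → ℝ}
    (ha : ∀ q : ℕ, |a q| ≤ 2 * Real.sqrt q) (hfr : FrobRel T a) {M B : ℕ} (hG : GlobW ie Wv D a M B)
    (hM : MerW ie Wv D a M B) {z0 : ℂ} (hz : z0.re = 1) (K : Type) [Field K] [NumberField K]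
    (hK : Lw ie Wv T M B 11 K) {o : ℝ} (ho : LogO (RF D a K) z0 o) : 0 ≤ o := by
  obtain ⟨k, hk⟩ := ioL hTp hT D ha hfr hG hM K (hK.mono (by norm_num)) z0 hz
  rw [logO_unique ho hk]
  have h1 := towerL hTp hT D ha hfr hG hM hz 6 le_rfl K hK k hk
  have h2 : (0 : ℤ) ≤ k := by simpa using h1
  exact_mod_cast h2

end Pool.Agent.GK
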