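import Pool.Agent.GK.C.Defs
import Pool.Agent.TF2.G.V4L

/-!
# GK/C-V4: copy of a part of TF2/G/V4L for the smaller class
-/

namespace Pool.Agent.GK

open NumberField IsDedekindDomain Pool.Agent.HWR Pool.Agent.QD Pool.Agent.QD.In Pool.Agent.LD
  Pool.Agent.MD Pool.Agent.THF Pool.Agent.TF2 Pool.Agent.THG Pool.Agent.H73.AL

variable {ie : ℕ} {Wv : Finset ℕ}

theorem exK_of_exL {T : Finset ℕ} {D : LocData T} {a : ℕ → ℝ} {M B k : ℕ} (hE : ExW ie Wv D a M B k)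
    {K : Type} [Field K] [NumberField K] (hK : Lw ie Wv T M B (k + 2) K) : ExK D a K := by
  refine ⟨hE.1 K (hK.mono (by omega)), fun L _ _ _ hd => hE.1 L ((hK.quad hd).mono (by omega)),
    fun x hx hs F _ _ _ θ hd hθ => hE.2 K (hK.mono (by omega)) x hx hs F θ hd hθ,
    fun L _ _ _ hL x hx hs F _ _ _ θ hd hθ => hE.2 L (hK.quad hL) x hx (Or.inl hs) F θ hd hθ⟩

end Pool.Agent.GK
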